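import Pool.Agent.H8.BH.WGD

/-!
# (WG) the bound for one class of positions (MP_52e316_nt)
-/

set_option autoImplicit false

open NumberField NumberField.InfinitePlace NumberField.Units
  NumberField.Units.dirichletUnitTheorem MeasureTheory Set Filter Complex
open scoped nonZeroDivisors ENNReal

namespace Pool.Agent.H8.BH

open Pool.Agent.H25.HK Pool.Agent.H23.LB Pool.Agent.H23.LC Pool.Agent.H29.DW
open Pool.Agent.H28.RC (Rep ft idl)
open Pool.Agent.H29.BH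
open Pool.Agent.H29.TC (dvs)

open WG in
open scoped Classical in
/-- (WG) -/
theorem pf_R_WG (hHP : R_HP) (hIF : R_IF) (hIG : R_IG) (hMU : R_MU) (hC1 : R_C1) (hG1 : R_G1)
    (hDV : Pool.Agent.H29.TC.T_DV) (hPK : A_PK) (hNV : K_NV) : R_WG := by
  intro n hn ε hε hε1
  obtain ⟨e, he⟩ : ∃ e : ℝ, e = ε / 8 := ⟨_, rfl⟩
  have he0 : 0 < e := by rw [he]; positivity
  have he8 : e ≤ 1 / 8 := by rw [he]; linarith
  obtain ⟨C₀, hC₀, h0⟩ := hMU n hn ε hε hε1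
  obtain ⟨C₁, hC₁, h1⟩ := hC1 n hn e he0 (by linarith)
  obtain ⟨C₂, hC₂, h2⟩ := hG1 n hn e he0 (by linarith)
  obtain ⟨C₃, h3⟩ := hDV n e he0
  obtain ⟨C₅, hC₅, h5⟩ := hHP n hn e he0 he8
  obtain ⟨C₄, hC₄⟩ : ∃ C₄ : ℝ, C₄ = max 1 C₃ := ⟨_, rfl⟩
  have hC₄1 : 1 ≤ C₄ := by rw [hC₄]; exact le_max_left _ _
  have hC₃₄ : C₃ ≤ C₄ := by rw [hC₄]; exact le_max_right _ _
  obtain ⟨C₆, hC₆⟩ : ∃ C₆ : ℝ, C₆ = 2 * (C₂ * Real.exp 1 ^ 2) * C₄ +
    2 * (C₁ * ((17 / 8) ^ n * Real.exp 1) ^ 2) + 16 * C₁ := ⟨_, rfl⟩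
  refine ⟨max (4 * C₀) (8 * C₅ * C₆), (by linarith : (1 : ℝ) ≤ 4 * C₀).trans (le_max_left _ _),
    ?_⟩
  intro K _ _ hK f hf χ hχ ι _ M hM μ τ₁ P X A g K₁ S hQ hP hX hX1 hS hg hK₁ hCg
  have hA1 := hS.one
  have hA0 : 0 < A := by linarith
  have hX0 : 0 < X := by linarith
  have hg0 : 0 < g := by linarith
  have hN1 := one_le_Nf hf
  have hc1 := cK_one χ.k μ
  have hP1 : 1 ≤ P := by
    rw [hP]
    exact one_le_mul_of_one_le_of_one_le hN1 hc1
  have hP0 : 0 < P := by linarith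
  have hNP : Nf K f ≤ P := by
    rw [hP]
    exact le_mul_of_one_le_right (by linarith) hc1
  have hs0 : 0 < (S.card : ℝ) := by
    by_contra hc
    have e1 : 0 < max (4 * C₀) (8 * C₅ * C₆) * X ^ ε * g := by
      have : 0 < max (4 * C₀) (8 * C₅ * C₆) :=
        lt_of_lt_of_le (by linarith : (0 : ℝ) < 4 * C₀) (le_max_left _ _)
      positivity
    have e2 : K₁ * (S.card : ℝ) ≤ 0 := mul_nonpos_of_nonneg_of_nonpos (by linarith) (not_lt.1 hc)
    linarith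
  -- the constants
  obtain ⟨w, hw⟩ : ∃ w : ℝ, w = (A * P * X) ^ e := ⟨_, rfl⟩
  obtain ⟨D, hD⟩ : ∃ D : ℝ, D = ((dvs K f).card : ℝ) := ⟨_, rfl⟩
  have hD0 : 0 ≤ D := by rw [hD]; positivity
  have hDw : D ≤ C₄ * P ^ e := by
    rw [hD]
    calc ((dvs K f).card : ℝ) ≤ C₃ * Nf K f ^ e := h3 K hK f hf
      _ ≤ C₄ * P ^ e := by gcongr
  obtain ⟨G, hG⟩ : ∃ G : ℝ, G = C₆ * w ^ 2 := ⟨_, rfl⟩
  obtain ⟨hw1, hG0, g1, g2, g3, g4, g5, hwAP⟩ :=
    consts hA1 hP1 hX1 he0 hC₁ hC₂ hC₄1 hC₆ hw hG hD0 hDw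
  obtain ⟨H, hH⟩ : ∃ H : ℝ, H = classNumber K * regulator K := ⟨_, rfl⟩
  have hreg : 0 < regulator K := regulator_pos K
  have hH0 : 0 ≤ H := by rw [hH]; positivity
  rw [← hH]
  obtain ⟨m, hm⟩ : ∃ m : ℝ, m = min H (X / g) := ⟨_, rfl⟩
  have hm0 : 0 ≤ m := by rw [hm]; exact le_min hH0 (by positivity)
  -- the windows
  have hMne := hM.1
  obtain ⟨T, hT⟩ : ∃ T : Set ℝ, T = Icc (τ₁ + Real.log A) (τ₁ + Real.log A + 2) := ⟨_, rfl⟩
  have hTm : MeasurableSet T := by rw [hT]; exact measurableSet_Icc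
  have hTsub : T ⊆ Icc (τ₁ + Real.log A) (τ₁ + Real.log A + 3) := by
    rw [hT]
    exact Icc_subset_Icc le_rfl (by linarith)
  have hτ₃ : Real.exp (-(τ₁ + Real.log A)) = X / A := by
    rw [neg_add, Real.exp_add, Real.exp_neg (Real.log A), Real.exp_log hA0, hX, div_eq_mul_inv]
  have hτ₂ : Real.exp (-(τ₁ - 1)) = Real.exp 1 * X := by
    rw [hX, ← Real.exp_add]
    congr 1
    ring
  have hlog : ∀ a ∈ S, Real.log A ≤ Real.log (Nf K a) ∧ Real.log (Nf K a) ≤ Real.log A + 1 := by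
    intro a ha
    obtain ⟨hs1, hs2⟩ := hS.size a ha
    refine ⟨Real.log_le_log hA0 hs1, ?_⟩
    have h2 : Real.log (Nf K a) ≤ Real.log (2 * A) :=
      Real.log_le_log (lt_of_lt_of_le hA0 hs1) hs2.le
    rw [Real.log_mul two_ne_zero hA0.ne'] at h2
    have h3 := Real.log_two_lt_d9
    linarith
  -- the moments
  have c1 := h1 K hK ι M hM (τ₁ - 1)
  have c3 := h1 K hK ι M hM (τ₁ + Real.log A)
  have d1 := h2 K hK f hf ι M hM (τ₁ - 1)
  have d3 := h2 K hK f hf ι M hM (τ₁ + Real.log A)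
  rw [← hH] at c1 c3
  rw [← hD] at d1 d3
  have iE : pint M (Icc (τ₁ - 1) (τ₁ - 1 + 3)) (fun L y => Ei χ μ g L y) ≤
      ENNReal.ofReal (G * m) := by
    rw [hm]
    exact int_Ei hPK hK χ μ (by linarith) hτ₂ hX1 hg hC₁ hC₂ hH0 hD0 c1.1
      (c1.2 1 (fun _ => 17 / 8) one_ne_zero fun _ => by norm_num) d1 g1 g2 g3
  have ivE := ivf_Ei hIF hf χ μ g
  have msE : ∀ a ∈ S, Ms (fun (L : FI K) y => Ei χ μ g ((a : FI K)⁻¹ * L) y) := by
    intro a ha
    exact ((hIF K f hf).2.2.2 _ _ (inv_ne_zero (coe_ne (hS.ne a ha))) ivE).meas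
  have iEa : ∀ a ∈ S, pint M T (fun (L : FI K) y => Ei χ μ g ((a : FI K)⁻¹ * L) y) ≤
      ENNReal.ofReal (G * m) := by
    intro a ha
    obtain ⟨l1, l2⟩ := hlog a ha
    have e1 := (hIG K ι ι M M hM hM _ ivE).2 a (τ₁ + Real.log A - Real.log (Nf K a))
      (τ₁ + Real.log A + 2 - Real.log (Nf K a)) (hS.ne a ha)
    rw [sub_add_cancel, sub_add_cancel, ← hT] at e1
    rw [← e1]
    exact (pint_mono_set (Icc_subset_Icc (by linarith) (by linarith)) _).trans iE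
  have iF1 : pint M T (fun (L : FI K) y => ENNReal.ofReal A *
      ∑ a ∈ S, Ei χ μ g ((a : FI K)⁻¹ * L) y) ≤ ENNReal.ofReal (G * (S.card * A * m)) := by
    rw [pint_const_mul ENNReal.ofReal_ne_top, pint_sum hMne S T _ msE]
    have e1 : ∑ a ∈ S, pint M T (fun (L : FI K) y => Ei χ μ g ((a : FI K)⁻¹ * L) y) ≤
        ENNReal.ofReal (S.card * (G * m)) := by
      refine (Finset.sum_le_sum iEa).trans (le_of_eq ?_)
      rw [Finset.sum_const, nsmul_eq_mul, ← ENNReal.ofReal_natCast,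
        ← ENNReal.ofReal_mul (by positivity)]
    refine (mul_le_mul_right e1 _).trans (le_of_eq ?_)
    rw [← ENNReal.ofReal_mul hA0.le]
    congr 1
    ring
  have msF1 : Ms (fun (L : FI K) y => ENNReal.ofReal A *
      ∑ a ∈ S, Ei χ μ g ((a : FI K)⁻¹ * L) y) := fun L hL =>
    (Finset.measurable_sum S fun a ha => msE a ha L hL).const_mul _
  obtain ⟨R, hR⟩ : ∃ R : InfinitePlace K → ℝ, R = fun v => 1 / (4 * cc (χ.k v) (μ v)) := ⟨_, rfl⟩
  have iod : pint M T (fun L y => od f S R L y) ≤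
      ENNReal.ofReal (G * ((S.card : ℝ) ^ 2 * A * X / P)) := by
    refine (pint_mono_set hTsub _).trans ?_
    rw [hR]
    refine (int_od hIF hMne hf χ μ hS hP hX1 hτ₃ he0 (by linarith) hC₁ c3.2).trans
      (ENNReal.ofReal_le_ofReal ?_)
    gcongr
  obtain ⟨-, -, hIF3, hIF4⟩ := hIF K f hf
  have msod : Ms (fun L y => od f S R L y) := ms_od hIF hf hS R
  have msF2 : Ms (fun (L : FI K) y => ENNReal.ofReal A *
      (∑ a ∈ S, Ei χ μ g ((a : FI K)⁻¹ * L) y) + od f S R L y) := fun L hL =>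
    (msF1 L hL).add (msod L hL)
  have iF2 : pint M T (fun (L : FI K) y => ENNReal.ofReal A *
      (∑ a ∈ S, Ei χ μ g ((a : FI K)⁻¹ * L) y) + od f S R L y) ≤
      ENNReal.ofReal (G * (S.card * A * m + (S.card : ℝ) ^ 2 * A * X / P)) := by
    rw [pint_add hMne T msF1 msod, mul_add, ENNReal.ofReal_add (by positivity) (by positivity)]
    exact add_le_add iF1 iod
  have msg : Ms (fun L y => gs f L y) := (hIF K f hf).1.meas
  have ms1 : Ms (K := K) (fun _ _ => 1) := fun _ _ => measurable_const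
  have msg1 : Ms (fun L y => 1 + gs f L y) := fun L hL => measurable_const.add (msg L hL)
  obtain ⟨V, hV⟩ : ∃ V : ℝ, V = P * (1 + 4 * P ^ (-(1 / 2) : ℝ) * K₁ ^ 2) := ⟨_, rfl⟩
  have hV0 : 0 ≤ V := by rw [hV]; positivity
  have msF3 : Ms (fun L y => ENNReal.ofReal V * (1 + gs f L y)) := fun L hL =>
    (msg1 L hL).const_mul _
  have iF3 : pint M T (fun L y => ENNReal.ofReal V * (1 + gs f L y)) ≤
      ENNReal.ofReal (4 * G * (P * (1 + P ^ (-(1 / 2) : ℝ) * K₁ ^ 2) * (H + X / A))) := by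
    rw [pint_const_mul ENNReal.ofReal_ne_top, pint_add hMne T ms1 msg]
    have e1 : pint M T (fun _ _ => 1) ≤ ENNReal.ofReal (G * H) :=
      ((pint_mono_set hTsub _).trans c3.1).trans (ENNReal.ofReal_le_ofReal (by gcongr))
    have e2 : pint M T (fun L y => gs f L y) ≤ ENNReal.ofReal (G * (X / A)) := by
      refine ((pint_mono_set hTsub _).trans d3).trans (ENNReal.ofReal_le_ofReal ?_)
      rw [hτ₃, Real.rpow_add (by positivity), Real.rpow_one]
      have e3 : (X / A) ^ e ≤ X ^ e :=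
        Real.rpow_le_rpow (by positivity) (div_le_self hX0.le hA1) he0.le
      calc C₂ * D * (X / A * (X / A) ^ e) ≤ C₂ * D * (X / A * X ^ e) := by gcongr
        _ = C₂ * (D * X ^ e) * (X / A) := by ring
        _ ≤ _ := by gcongr
    refine (mul_le_mul_right (add_le_add e1 e2) _).trans ?_
    rw [← ENNReal.ofReal_add (by positivity) (by positivity), ← ENNReal.ofReal_mul hV0]
    refine ENNReal.ofReal_le_ofReal ?_
    rw [hV]
    exact third hG0.le hP0 hH0 (by positivity)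
  -- the average over the multipliers
  have avg : ENNReal.ofReal (S.card / 2) * pint M (Icc τ₁ (τ₁ + 1)) (fun L y =>
      if ENNReal.ofReal g ≤ 1 + gs f L y ∧ 1 + gs f L y < ENNReal.ofReal (2 * g) then
        ENNReal.ofReal ‖SS χ L y μ‖ else 0) ≤
      pint M T (fun (L : FI K) y => ∑ a ∈ S, Ph χ μ g K₁ a ((a : FI K)⁻¹ * L) y) := by
    rw [← pint_const_mul ENNReal.ofReal_ne_top]
    have e1 : pint M (Icc τ₁ (τ₁ + 1)) (fun L y => ENNReal.ofReal (S.card / 2) *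
        if ENNReal.ofReal g ≤ 1 + gs f L y ∧ 1 + gs f L y < ENNReal.ofReal (2 * g) then
        ENNReal.ofReal ‖SS χ L y μ‖ else 0) ≤
        pint M (Icc τ₁ (τ₁ + 1)) (fun (L : FI K) y => ∑ a ∈ S, Ph χ μ g K₁ a L y) := by
      refine pint_mono measurableSet_Icc fun c z τ hτ => ?_
      refine point1 (Z := C₀ * X ^ ε) χ μ hK₁ (by positivity) ?_ _ _ ?_
      · have e2 : 4 * C₀ * X ^ ε * g ≤ K₁ * S.card := by
          refine le_trans ?_ hCg
          gcongr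
          exact le_max_left _ _
        linarith
      · refine (h0 K hK f A S hf hS (M c) (yM K (M c) τ z) (hMne c)).trans ?_
        have e2 : bt (M c) (yM K (M c) τ z) ≤ X := by
          rw [(hNV K (M c) (yM K (M c) τ z) (hMne c)).2.2.2.2.2 τ z, hX]
          exact Real.exp_le_exp.2 (by linarith [hτ.1])
        have e3 := (hNV K (M c) (yM K (M c) τ z) (hMne c)).1
        gcongr
    refine e1.trans ?_
    rw [pint_sum hMne S _ _ fun a ha => (ivf_Ph hIF hf χ μ g K₁ (hS.ne a ha)).meas]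
    refine le_trans (Finset.sum_le_sum fun a ha => ?_) (sum_pint_le S T
      (fun (a : Ideal (𝓞 K)) (L : FI K) y => Ph χ μ g K₁ a ((a : FI K)⁻¹ * L) y))
    obtain ⟨l1, l2⟩ := hlog a ha
    rw [(hIG K ι ι M M hM hM _ (ivf_Ph hIF hf χ μ g K₁ (hS.ne a ha))).2 a τ₁ (τ₁ + 1)
      (hS.ne a ha)]
    refine pint_mono_set ?_ _
    rw [hT]
    exact Icc_subset_Icc (by linarith) (by linarith)
  -- the inequality of Hoelder
  have hol : pint M T (fun (L : FI K) y => ∑ a ∈ S, Ph χ μ g K₁ a ((a : FI K)⁻¹ * L) y) ≤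
      ENNReal.ofReal (C₅ * (A * P) ^ e) *
        (ENNReal.ofReal (G * (S.card * A * m)) ^ (1 / 2 : ℝ) *
        ENNReal.ofReal (G * (S.card * A * m + (S.card : ℝ) ^ 2 * A * X / P)) ^ (1 / 4 : ℝ) *
        ENNReal.ofReal (4 * G * (P * (1 + P ^ (-(1 / 2) : ℝ) * K₁ ^ 2) * (H + X / A))) ^
          (1 / 4 : ℝ)) := by
    have e1 : pint M T (fun (L : FI K) y => ∑ a ∈ S, Ph χ μ g K₁ a ((a : FI K)⁻¹ * L) y) ≤
        pint M T (fun (L : FI K) y => ENNReal.ofReal (C₅ * (A * P) ^ e) *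
          ((ENNReal.ofReal A * ∑ a ∈ S, Ei χ μ g ((a : FI K)⁻¹ * L) y) ^ (1 / 2 : ℝ) *
          (ENNReal.ofReal A * (∑ a ∈ S, Ei χ μ g ((a : FI K)⁻¹ * L) y) + od f S R L y) ^
            (1 / 4 : ℝ) * (ENNReal.ofReal V * (1 + gs f L y)) ^ (1 / 4 : ℝ))) := by
      refine pint_mono hTm fun c z τ _ => ?_
      rw [hV]
      refine point2 χ μ hS hP0 hK₁ (M c) (yM K (M c) τ z)
        (od f S R (M c) (yM K (M c) τ z)) fun E hE => ?_
      rw [hR]
      exact h5 K hK f hf χ hχ (M c) (yM K (M c) τ z) μ A P S E (hMne c) hQ hS hE hP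
    refine e1.trans ?_
    rw [pint_const_mul ENNReal.ofReal_ne_top]
    refine mul_le_mul_right ((pint_holder hMne T msF1 msF2 msF3).trans ?_) _
    exact mul_le_mul' (mul_le_mul' (ENNReal.rpow_le_rpow iF1 (by norm_num))
      (ENNReal.rpow_le_rpow iF2 (by norm_num))) (ENNReal.rpow_le_rpow iF3 (by norm_num))
  -- the end
  obtain ⟨B, hB⟩ : ∃ B : ℝ≥0∞, B = pint M (Icc τ₁ (τ₁ + 1)) (fun L y =>
      if ENNReal.ofReal g ≤ 1 + gs f L y ∧ 1 + gs f L y < ENNReal.ofReal (2 * g) then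
        ENNReal.ofReal ‖SS χ L y μ‖ else 0) := ⟨_, rfl⟩
  rw [← hB] at avg ⊢
  have fin1 := avg.trans hol
  rw [hm] at fin1
  obtain ⟨hW0, fin2⟩ := fin_num hs0 hG0 hA0 hP0 hX0 hg0 hH0 (by linarith)
    (Real.rpow_nonneg (mul_nonneg hA0.le hP0.le) e) fin1
  obtain ⟨W, hW⟩ : ∃ W : ℝ, W = Wb H P X A S.card g K₁ := ⟨_, rfl⟩
  rw [← hW] at hW0 fin2 ⊢
  refine fin2.trans (ENNReal.ofReal_le_ofReal ?_)
  have hw0 : 0 < w := by linarith
  have hC₆0 : 0 ≤ C₆ := by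
    by_contra hc
    have e1 : C₆ * w ^ 2 ≤ 0 := mul_nonpos_of_nonpos_of_nonneg (not_le.1 hc).le (by positivity)
    linarith
  have hAPX : 1 ≤ A * P * X :=
    one_le_mul_of_one_le_of_one_le (one_le_mul_of_one_le_of_one_le hA1 hP1) hX1
  have e1 : w ^ 3 ≤ (A * P * X) ^ ε := by
    rw [hw, ← Real.rpow_natCast, ← Real.rpow_mul (by linarith)]
    refine Real.rpow_le_rpow_of_exponent_le hAPX ?_
    rw [he]
    push_cast
    linarith
  have e2 : 0 ≤ 8 * C₅ * C₆ * W := by positivity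
  calc 8 * C₅ * (A * P) ^ e * G * W = (A * P) ^ e * (8 * C₅ * (C₆ * w ^ 2) * W) := by
        rw [hG]
        ring
    _ ≤ w * (8 * C₅ * (C₆ * w ^ 2) * W) := mul_le_mul_of_nonneg_right hwAP (by positivity)
    _ = w ^ 3 * (8 * C₅ * C₆ * W) := by ring
    _ ≤ (A * P * X) ^ ε * (8 * C₅ * C₆ * W) := mul_le_mul_of_nonneg_right e1 e2
    _ = 8 * C₅ * C₆ * ((A * P * X) ^ ε * W) := by ring
    _ ≤ max (4 * C₀) (8 * C₅ * C₆) * ((A * P * X) ^ ε * W) :=
        mul_le_mul_of_nonneg_right (le_max_right _ _) (by positivity)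
    _ = _ := by ring

end Pool.Agent.H8.BH
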