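import Pool.Agent.H29.BH.Targets3

/-!
# (WG) the integral over the positions: tools (MP_52e316_nt)
-/

set_option autoImplicit false

open NumberField NumberField.InfinitePlace NumberField.Units
  NumberField.Units.dirichletUnitTheorem MeasureTheory Set Filter Complex
open scoped nonZeroDivisors ENNReal

namespace Pool.Agent.H8.BH

open Pool.Agent.H25.HK Pool.Agent.H23.LB Pool.Agent.H23.LC Pool.Agent.H29.DW
open Pool.Agent.H28.RC (Rep ft idl)
open Pool.Agent.H29.BH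

namespace WG

section

variable {K : Type} [Field K] [NumberField K]

/-- measurable functions of the position -/
def Ms (Φ : FI K → (InfinitePlace K → ℝ) → ℝ≥0∞) : Prop :=
  ∀ M : FI K, M ≠ 0 → Measurable (fun q : ℝ × logSpace K => Φ M (yM K M q.1 q.2))

theorem IvF.comp3 {Φ₁ Φ₂ Φ₃ : FI K → (InfinitePlace K → ℝ) → ℝ≥0∞} (h1 : IvF Φ₁) (h2 : IvF Φ₂)
    (h3 : IvF Φ₃) (G : ℝ≥0∞ × ℝ≥0∞ × ℝ≥0∞ → ℝ≥0∞) (hG : Measurable G) :
    IvF (fun L y => G (Φ₁ L y, Φ₂ L y, Φ₃ L y)) := by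
  refine ⟨fun M hM => ?_, fun M y l hM hl => ?_⟩
  · exact hG.comp ((h1.meas M hM).prodMk ((h2.meas M hM).prodMk (h3.meas M hM)))
  · simp only [h1.inv M y l hM hl, h2.inv M y l hM hl, h3.inv M y l hM hl]

variable {ι : Type} [Fintype ι] {M : ι → FI K}

open scoped Classical in
theorem pint_mono_set {T T' : Set ℝ} (h : T ⊆ T')
    (Φ : FI K → (InfinitePlace K → ℝ) → ℝ≥0∞) : pint M T Φ ≤ pint M T' Φ :=
  Finset.sum_le_sum fun _ _ => lintegral_mono fun _ => lintegral_mono_set h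

open scoped Classical in
theorem pint_mono {T : Set ℝ} (hT : MeasurableSet T)
    {Φ Ψ : FI K → (InfinitePlace K → ℝ) → ℝ≥0∞}
    (h : ∀ c z τ, τ ∈ T → Φ (M c) (yM K (M c) τ z) ≤ Ψ (M c) (yM K (M c) τ z)) :
    pint M T Φ ≤ pint M T Ψ :=
  Finset.sum_le_sum fun c _ => lintegral_mono fun z => setLIntegral_mono' hT fun τ hτ => h c z τ hτ

open scoped Classical in
theorem pint_const_mul {T : Set ℝ} {r : ℝ≥0∞} (hr : r ≠ ∞)
    (Φ : FI K → (InfinitePlace K → ℝ) → ℝ≥0∞) :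
    pint M T (fun L y => r * Φ L y) = r * pint M T Φ := by
  unfold pint
  rw [Finset.mul_sum]
  refine Finset.sum_congr rfl fun c _ => ?_
  rw [← lintegral_const_mul' _ _ hr]
  refine lintegral_congr fun z => ?_
  rw [lintegral_const_mul' _ _ hr]

theorem sum_lintegral_le {α κ : Type*} [MeasurableSpace α] (μ : Measure α) (S : Finset κ)
    (f : κ → α → ℝ≥0∞) : ∑ i ∈ S, ∫⁻ x, f i x ∂μ ≤ ∫⁻ x, ∑ i ∈ S, f i x ∂μ := by
  classical
  induction S using Finset.induction_on with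
  | empty => simp
  | insert i S hi ih =>
    rw [Finset.sum_insert hi]
    refine (add_le_add le_rfl ih).trans ((le_lintegral_add _ _).trans (le_of_eq ?_))
    refine lintegral_congr fun x => ?_
    rw [Finset.sum_insert hi]

open scoped Classical in
/-- superadditivity (without measurability) -/
theorem sum_pint_le {κ : Type*} (S : Finset κ) (T : Set ℝ)
    (Φ : κ → FI K → (InfinitePlace K → ℝ) → ℝ≥0∞) :
    ∑ a ∈ S, pint M T (Φ a) ≤ pint M T (fun L y => ∑ a ∈ S, Φ a L y) := by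
  unfold pint
  rw [Finset.sum_comm]
  refine Finset.sum_le_sum fun c _ => ?_
  refine (sum_lintegral_le _ S _).trans ?_
  exact lintegral_mono fun z => sum_lintegral_le _ S _

open scoped Classical in
/-- the measure on the positions -/
noncomputable def ρm (K : Type) [Field K] [NumberField K] (T : Set ℝ) :
    Measure (ℝ × logSpace K) :=
  ((volume : Measure ℝ).restrict T).prod ((volume : Measure (logSpace K)).restrict (Fd K))

open scoped Classical in
theorem pint_eq (hM : ∀ c, M c ≠ 0) {Φ : FI K → (InfinitePlace K → ℝ) → ℝ≥0∞} (hΦ : Ms Φ)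
    (T : Set ℝ) : pint M T Φ = ∑ c, ∫⁻ q, Φ (M c) (yM K (M c) q.1 q.2) ∂ρm K T := by
  unfold pint ρm
  refine Finset.sum_congr rfl fun c _ => ?_
  rw [lintegral_prod_symm' _ (hΦ (M c) (hM c))]

open scoped Classical in
theorem pint_sum (hM : ∀ c, M c ≠ 0) {κ : Type*} (S : Finset κ) (T : Set ℝ)
    (Φ : κ → FI K → (InfinitePlace K → ℝ) → ℝ≥0∞) (hΦ : ∀ a ∈ S, Ms (Φ a)) :
    pint M T (fun L y => ∑ a ∈ S, Φ a L y) = ∑ a ∈ S, pint M T (Φ a) := by
  have h1 : Ms (fun L y => ∑ a ∈ S, Φ a L y) := fun L hL =>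
    Finset.measurable_sum S fun a ha => hΦ a ha L hL
  rw [pint_eq hM h1]
  rw [Finset.sum_congr rfl fun a ha => pint_eq hM (hΦ a ha) T, Finset.sum_comm]
  refine Finset.sum_congr rfl fun c _ => ?_
  rw [lintegral_finset_sum' S fun a ha => (hΦ a ha (M c) (hM c)).aemeasurable]

open scoped Classical in
theorem pint_add (hM : ∀ c, M c ≠ 0) (T : Set ℝ)
    {Φ Ψ : FI K → (InfinitePlace K → ℝ) → ℝ≥0∞} (hΦ : Ms Φ) (hΨ : Ms Ψ) :
    pint M T (fun L y => Φ L y + Ψ L y) = pint M T Φ + pint M T Ψ := by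
  have h1 : Ms (fun L y => Φ L y + Ψ L y) := fun L hL => (hΦ L hL).add (hΨ L hL)
  rw [pint_eq hM h1, pint_eq hM hΦ, pint_eq hM hΨ, ← Finset.sum_add_distrib]
  refine Finset.sum_congr rfl fun c _ => ?_
  rw [lintegral_add_left (hΦ (M c) (hM c))]

/-- Hoelder for three functions, exponents `1/2, 1/4, 1/4` -/
theorem holder3 {α : Type*} [MeasurableSpace α] (μ : Measure α) {f g h : α → ℝ≥0∞}
    (hf : Measurable f) (hg : Measurable g) (hh : Measurable h) :
    ∫⁻ x, f x ^ (1 / 2 : ℝ) * g x ^ (1 / 4 : ℝ) * h x ^ (1 / 4 : ℝ) ∂μ ≤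
      (∫⁻ x, f x ∂μ) ^ (1 / 2 : ℝ) * (∫⁻ x, g x ∂μ) ^ (1 / 4 : ℝ) *
        (∫⁻ x, h x ∂μ) ^ (1 / 4 : ℝ) := by
  have h1 := ENNReal.lintegral_prod_norm_pow_le (μ := μ) (Finset.univ : Finset (Fin 3))
    (f := ![f, g, h]) (p := ![1 / 2, 1 / 4, 1 / 4])
    (by
      intro i _
      fin_cases i
      · exact hf.aemeasurable
      · exact hg.aemeasurable
      · exact hh.aemeasurable)
    (by
      simp [Fin.sum_univ_three]
      norm_num)
    (by
      intro i _
      fin_cases i <;> simp)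
  simpa [Fin.prod_univ_three] using h1

open scoped Classical in
/-- Hoelder over the positions -/
theorem pint_holder (hM : ∀ c, M c ≠ 0) (T : Set ℝ)
    {F G H : FI K → (InfinitePlace K → ℝ) → ℝ≥0∞} (hF : Ms F) (hG : Ms G) (hH : Ms H) :
    pint M T (fun L y => F L y ^ (1 / 2 : ℝ) * G L y ^ (1 / 4 : ℝ) * H L y ^ (1 / 4 : ℝ)) ≤
      pint M T F ^ (1 / 2 : ℝ) * pint M T G ^ (1 / 4 : ℝ) * pint M T H ^ (1 / 4 : ℝ) := by
  have h1 : Ms (fun L y => F L y ^ (1 / 2 : ℝ) * G L y ^ (1 / 4 : ℝ) * H L y ^ (1 / 4 : ℝ)) :=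
    fun L hL => (((hF L hL).pow_const _).mul ((hG L hL).pow_const _)).mul
      ((hH L hL).pow_const _)
  rw [pint_eq hM h1, pint_eq hM hF, pint_eq hM hG, pint_eq hM hH]
  refine (Finset.sum_le_sum fun c _ => holder3 (ρm K T) (hF (M c) (hM c)) (hG (M c) (hM c))
    (hH (M c) (hM c))).trans ?_
  letI : MeasurableSpace ι := ⊤
  haveI : MeasurableSingletonClass ι := ⟨fun _ => trivial⟩
  have h2 := holder3 (Measure.count : Measure ι)
    (f := fun c => ∫⁻ q, F (M c) (yM K (M c) q.1 q.2) ∂ρm K T)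
    (g := fun c => ∫⁻ q, G (M c) (yM K (M c) q.1 q.2) ∂ρm K T)
    (h := fun c => ∫⁻ q, H (M c) (yM K (M c) q.1 q.2) ∂ρm K T)
    (fun _ _ => trivial) (fun _ _ => trivial) (fun _ _ => trivial)
  simpa only [lintegral_count, tsum_fintype] using h2

end

end WG

end Pool.Agent.H8.BH
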