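import Pool.Agent.H8.BH.WGA

/-!
# (WG) the first moments (MP_52e316_nt)
-/

set_option autoImplicit false

open NumberField NumberField.InfinitePlace NumberField.Units
  NumberField.Units.dirichletUnitTheorem MeasureTheory Set Filter Complex
open scoped nonZeroDivisors ENNReal

namespace Pool.Agent.H8.BH

open Pool.Agent.H25.HK Pool.Agent.H23.LB Pool.Agent.H23.LC Pool.Agent.H29.DW
open Pool.Agent.H28.RC (Rep ft idl)
open Pool.Agent.H29.BH
open Pool.Agent.H29.TC (dvs)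

namespace WG

/-- powers -/
theorem pw {c X κ : ℝ} (hc : 1 ≤ c) (hX : 0 < X) (hκ : κ ≤ 1) :
    (c * X) ^ (1 + κ) ≤ c ^ 2 * (X * X ^ κ) := by
  rw [Real.mul_rpow (by linarith) hX.le, Real.rpow_add hX, Real.rpow_one]
  have h1 : c ^ (1 + κ) ≤ c ^ (2 : ℕ) := by
    rw [← Real.rpow_natCast]
    exact Real.rpow_le_rpow_of_exponent_le hc (by push_cast; linarith)
  gcongr

section

variable {K : Type} [Field K] [NumberField K]

/-- the class of positions -/
def Ep {f : Ideal (𝓞 K)} (χ : HG K f) (μ : InfinitePlace K → ℂ) (g : ℝ) (L : FI K)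
    (y : InfinitePlace K → ℝ) : Prop :=
  (ENNReal.ofReal g ≤ 1 + gs f L y ∧ 1 + gs f L y < ENNReal.ofReal (2 * g)) ∧
    ENNReal.ofReal ‖SS χ L y μ‖ ≠ 0

open scoped Classical in
/-- its indicator function -/
noncomputable def Ei {f : Ideal (𝓞 K)} (χ : HG K f) (μ : InfinitePlace K → ℂ) (g : ℝ) (L : FI K)
    (y : InfinitePlace K → ℝ) : ℝ≥0∞ := if Ep χ μ g L y then 1 else 0

open scoped Classical in
/-- the function of one multiplier -/
noncomputable def Ph {f : Ideal (𝓞 K)} (χ : HG K f) (μ : InfinitePlace K → ℂ) (g K₁ : ℝ)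
    (a : Ideal (𝓞 K)) (L : FI K) (y : InfinitePlace K → ℝ) : ℝ≥0∞ :=
  if Ep χ μ g L y ∧ gs f ((a : FI K) * L) y ≤ ENNReal.ofReal K₁ then
    ENNReal.ofReal ‖SS χ L y μ‖ else 0

theorem coe_ne {a : Ideal (𝓞 K)} (ha : a ≠ ⊥) : (a : FI K) ≠ 0 := by
  rwa [Ne, FractionalIdeal.coeIdeal_eq_zero]

theorem meas_set (g : ℝ) : MeasurableSet {p : ℝ≥0∞ × ℝ≥0∞ × ℝ≥0∞ |
    (ENNReal.ofReal g ≤ 1 + p.1 ∧ 1 + p.1 < ENNReal.ofReal (2 * g)) ∧ p.2.1 ≠ 0} := by
  have e1 : Measurable (fun p : ℝ≥0∞ × ℝ≥0∞ × ℝ≥0∞ => 1 + p.1) := by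
    fun_prop
  have e2 : Measurable (fun p : ℝ≥0∞ × ℝ≥0∞ × ℝ≥0∞ => p.2.1) :=
    measurable_fst.comp measurable_snd
  exact ((measurableSet_le measurable_const e1).inter (measurableSet_lt e1 measurable_const)).inter
    (measurableSet_eq_fun e2 measurable_const).compl

theorem ivf_Ei (hIF : R_IF) {f : Ideal (𝓞 K)} (hf : f ≠ ⊥) (χ : HG K f)
    (μ : InfinitePlace K → ℂ) (g : ℝ) : IvF (fun L y => Ei χ μ g L y) := by
  classical
  obtain ⟨h1, h2, -, -⟩ := hIF K f hf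
  have h := IvF.comp3 h1 (h2 χ μ) (h2 χ μ) (fun p => if (ENNReal.ofReal g ≤ 1 + p.1 ∧
    1 + p.1 < ENNReal.ofReal (2 * g)) ∧ p.2.1 ≠ 0 then 1 else 0)
    (Measurable.ite (meas_set g) measurable_const measurable_const)
  convert h using 3
  unfold Ei Ep
  congr

theorem ivf_Ph (hIF : R_IF) {f : Ideal (𝓞 K)} (hf : f ≠ ⊥) (χ : HG K f)
    (μ : InfinitePlace K → ℂ) (g K₁ : ℝ) {a : Ideal (𝓞 K)} (ha : a ≠ ⊥) :
    IvF (fun L y => Ph χ μ g K₁ a L y) := by
  classical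
  obtain ⟨h1, h2, -, h4⟩ := hIF K f hf
  have e2 : Measurable (fun p : ℝ≥0∞ × ℝ≥0∞ × ℝ≥0∞ => p.2.1) :=
    measurable_fst.comp measurable_snd
  have e3 : Measurable (fun p : ℝ≥0∞ × ℝ≥0∞ × ℝ≥0∞ => p.2.2) :=
    measurable_snd.comp measurable_snd
  have h := IvF.comp3 h1 (h2 χ μ) (h4 _ (a : FI K) (coe_ne ha) h1)
    (fun p => if ((ENNReal.ofReal g ≤ 1 + p.1 ∧
    1 + p.1 < ENNReal.ofReal (2 * g)) ∧ p.2.1 ≠ 0) ∧ p.2.2 ≤ ENNReal.ofReal K₁ then
      p.2.1 else 0)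
    (Measurable.ite ((meas_set g).inter (measurableSet_le e3 measurable_const)) e2
      measurable_const)
  convert h using 3
  unfold Ph Ep
  congr

/-- a position in the class has a point in the box -/
theorem one_le_cn (hPK : A_PK) {f : Ideal (𝓞 K)} (χ : HG K f) (L : FI K)
    (y : InfinitePlace K → ℝ) (μ : InfinitePlace K → ℂ) (h : SS χ L y μ ≠ 0) :
    1 ≤ cn L y (fun _ => 17 / 8) := by
  classical
  obtain ⟨-, -, hpk, -⟩ := hPK
  obtain ⟨x, hx⟩ : ∃ x : {x : K // x ∈ L}, cg χ L x *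
      (((PK (sy y x.1) : ℝ) : ℂ) * GG χ.k μ (sy y x.1)) ≠ 0 := by
    by_contra hc
    push Not at hc
    apply h
    unfold SS
    rw [tsum_congr hc, tsum_zero]
  have h1 : PK (sy y x.1) ≠ 0 := by
    intro h0
    apply hx
    rw [h0]
    simp
  have h2 : ∀ v : InfinitePlace K, pk (rv v) (sy y x.1 v) ≠ 0 := by
    intro v h0
    apply h1
    unfold PK
    exact Finset.prod_eq_zero (Finset.mem_univ v) (by rw [h0]; simp)
  have h3 : x.1 ≠ 0 := by
    intro h0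
    obtain ⟨v⟩ : Nonempty (InfinitePlace K) := inferInstance
    have h4 := (hpk _ _ (h2 v)).1
    rw [h0] at h4
    unfold sy at h4
    rw [map_zero, zero_mul, norm_zero] at h4
    norm_num at h4
  unfold cn
  refine le_trans ?_ (ENNReal.le_tsum x.1)
  rw [if_pos ⟨x.2, h3, fun v => (hpk _ _ (h2 v)).2⟩]

theorem prod_const_mult {n : ℕ} (hK : Module.finrank ℚ K = n) (r : ℝ) :
    ∏ v : InfinitePlace K, r ^ v.mult = r ^ n := by
  rw [Finset.prod_pow_eq_pow_sum, InfinitePlace.sum_mult_eq, hK]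

variable {ι : Type} [Fintype ι] {M : ι → FI K}

open scoped Classical in
/-- the number of the positions in the class -/
theorem int_Ei (hPK : A_PK) {n : ℕ} (hK : Module.finrank ℚ K = n) {f : Ideal (𝓞 K)}
    (χ : HG K f) (μ : InfinitePlace K → ℂ) {τ₂ X g κ H C₁ C₂ D G : ℝ}
    (hκ : κ ≤ 1) (hX : Real.exp (-τ₂) = Real.exp 1 * X) (hX1 : 1 ≤ X) (hg : 1 ≤ g)
    (hC₁ : 1 ≤ C₁) (hC₂ : 1 ≤ C₂) (hH : 0 ≤ H) (hD : 0 ≤ D)
    (h1 : pint M (Icc τ₂ (τ₂ + 3)) (fun _ _ => 1) ≤ ENNReal.ofReal (C₁ * H))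
    (h2 : pint M (Icc τ₂ (τ₂ + 3)) (fun L y => cn ((1 : FI K) * L) y (fun _ => 17 / 8)) ≤
      ENNReal.ofReal (C₁ * ((∏ v : InfinitePlace K, (17 / 8 : ℝ) ^ v.mult) * Real.exp (-τ₂) /
        (FractionalIdeal.absNorm (1 : FI K) : ℝ)) ^ (1 + κ)))
    (h3 : pint M (Icc τ₂ (τ₂ + 3)) (fun L y => gs f L y) ≤
      ENNReal.ofReal (C₂ * D * Real.exp (-τ₂) ^ (1 + κ)))
    (hG1 : C₁ ≤ G) (hG2 : 2 * (C₂ * Real.exp 1 ^ 2) * (D * X ^ κ) ≤ G)
    (hG3 : 2 * (C₁ * ((17 / 8) ^ n * Real.exp 1) ^ 2) * X ^ κ ≤ G) :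
    pint M (Icc τ₂ (τ₂ + 3)) (fun L y => Ei χ μ g L y) ≤ ENNReal.ofReal (G * min H (X / g)) := by
  have hX0 : 0 < X := by linarith
  have hg0 : 0 < g := by linarith
  have he1 : 1 ≤ Real.exp 1 := Real.one_le_exp zero_le_one
  have hG0 : 0 ≤ G := by linarith
  have hA : pint M (Icc τ₂ (τ₂ + 3)) (fun L y => Ei χ μ g L y) ≤ ENNReal.ofReal (G * H) := by
    refine (pint_mono measurableSet_Icc fun c z τ _ => ?_).trans (h1.trans
      (ENNReal.ofReal_le_ofReal (mul_le_mul_of_nonneg_right hG1 hH)))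
    unfold Ei
    split_ifs <;> simp
  have hB : pint M (Icc τ₂ (τ₂ + 3)) (fun L y => Ei χ μ g L y) ≤
      ENNReal.ofReal (G * (X / g)) := by
    rcases le_or_gt 2 g with hg2 | hg2
    · have h4 : pint M (Icc τ₂ (τ₂ + 3)) (fun L y => Ei χ μ g L y) ≤
          pint M (Icc τ₂ (τ₂ + 3)) (fun L y => ENNReal.ofReal (2 / g) * gs f L y) := by
        refine pint_mono measurableSet_Icc fun c z τ _ => ?_
        unfold Ei
        split_ifs with hE
        · obtain ⟨⟨h5, -⟩, -⟩ := hE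
          have h6 : ENNReal.ofReal (g / 2) ≤ gs f (M c) (yM K (M c) τ z) := by
            have h7 : ENNReal.ofReal (g / 2) + 1 ≤ ENNReal.ofReal g := by
              rw [← ENNReal.ofReal_one, ← ENNReal.ofReal_add (by positivity) zero_le_one]
              exact ENNReal.ofReal_le_ofReal (by linarith)
            have h8 : 1 + ENNReal.ofReal (g / 2) ≤ 1 + gs f (M c) (yM K (M c) τ z) := by
              rw [add_comm]
              exact h7.trans h5
            exact (ENNReal.add_le_add_iff_left ENNReal.one_ne_top).1 h8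
          calc (1 : ℝ≥0∞) = ENNReal.ofReal (2 / g) * ENNReal.ofReal (g / 2) := by
                rw [← ENNReal.ofReal_mul (by positivity), show 2 / g * (g / 2) = 1 by field_simp,
                  ENNReal.ofReal_one]
            _ ≤ _ := by gcongr
        · exact zero_le
      rw [pint_const_mul ENNReal.ofReal_ne_top] at h4
      refine h4.trans ((mul_le_mul_right h3 _).trans ?_)
      rw [← ENNReal.ofReal_mul (by positivity)]
      refine ENNReal.ofReal_le_ofReal ?_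
      rw [hX]
      have h5 := pw (κ := κ) he1 hX0 hκ
      calc 2 / g * (C₂ * D * (Real.exp 1 * X) ^ (1 + κ))
          ≤ 2 / g * (C₂ * D * (Real.exp 1 ^ 2 * (X * X ^ κ))) := by gcongr
        _ = 2 * (C₂ * Real.exp 1 ^ 2) * (D * X ^ κ) * (X / g) := by
            field_simp
        _ ≤ G * (X / g) := by gcongr
    · have h4 : pint M (Icc τ₂ (τ₂ + 3)) (fun L y => Ei χ μ g L y) ≤
          pint M (Icc τ₂ (τ₂ + 3)) (fun L y => cn ((1 : FI K) * L) y (fun _ => 17 / 8)) := by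
        refine pint_mono measurableSet_Icc fun c z τ _ => ?_
        unfold Ei
        split_ifs with hE
        · rw [one_mul]
          refine one_le_cn hPK χ _ _ μ fun h0 => hE.2 ?_
          rw [h0, norm_zero, ENNReal.ofReal_zero]
        · exact zero_le
      refine h4.trans (h2.trans (ENNReal.ofReal_le_ofReal ?_))
      rw [prod_const_mult hK, map_one, Rat.cast_one, div_one, hX, ← mul_assoc]
      have hc : 1 ≤ (17 / 8 : ℝ) ^ n * Real.exp 1 :=
        one_le_mul_of_one_le_of_one_le (one_le_pow₀ (by norm_num)) he1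
      have h5 := pw (κ := κ) hc hX0 hκ
      have h6 : 1 ≤ 2 / g := by
        rw [le_div_iff₀ hg0]
        linarith
      calc C₁ * ((17 / 8) ^ n * Real.exp 1 * X) ^ (1 + κ)
          ≤ C₁ * (((17 / 8) ^ n * Real.exp 1) ^ 2 * (X * X ^ κ)) := by gcongr
        _ = (C₁ * ((17 / 8) ^ n * Real.exp 1) ^ 2 * X ^ κ * X) * 1 := by ring
        _ ≤ (C₁ * ((17 / 8) ^ n * Real.exp 1) ^ 2 * X ^ κ * X) * (2 / g) := by gcongr
        _ = 2 * (C₁ * ((17 / 8) ^ n * Real.exp 1) ^ 2) * X ^ κ * (X / g) := by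
            field_simp
        _ ≤ G * (X / g) := by gcongr
  rcases le_total H (X / g) with h | h
  · rw [min_eq_left h]
    exact hA
  · rw [min_eq_right h]
    exact hB

end

end WG

end Pool.Agent.H8.BH
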