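import Pool.Agent.H8.BH.WGB

/-!
# (WG) the integral of the off-diagonal part (MP_52e316_nt)
-/

set_option autoImplicit false

open NumberField NumberField.InfinitePlace NumberField.Units
  NumberField.Units.dirichletUnitTheorem MeasureTheory Set Filter Complex
open scoped nonZeroDivisors ENNReal

namespace Pool.Agent.H8.BH

open Pool.Agent.H25.HK Pool.Agent.H23.LB Pool.Agent.H23.LC Pool.Agent.H29.DW
open Pool.Agent.H28.RC (Rep ft idl)
open Pool.Agent.H29.BH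
open Pool.Agent.H29.TC (dvs)

namespace WG

variable {K : Type} [Field K] [NumberField K]

theorem Nf_pos {a : Ideal (𝓞 K)} (ha : a ≠ ⊥) : 0 < Nf K a := by
  unfold Nf
  have : 0 < Ideal.absNorm a := Nat.pos_of_ne_zero (by rwa [Ne, Ideal.absNorm_eq_zero_iff])
  exact_mod_cast this

theorem one_le_Nf {a : Ideal (𝓞 K)} (ha : a ≠ ⊥) : 1 ≤ Nf K a := by
  unfold Nf
  have : 0 < Ideal.absNorm a := Nat.pos_of_ne_zero (by rwa [Ne, Ideal.absNorm_eq_zero_iff])
  exact_mod_cast this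

theorem cc_one (k : ℤ) (μ : ℂ) : 1 ≤ cc k μ := by
  unfold cc
  have h1 := abs_nonneg μ.im
  have h2 := abs_nonneg (k : ℝ)
  linarith

theorem cK_one (k : InfinitePlace K → ℤ) (μ : InfinitePlace K → ℂ) : 1 ≤ cK k μ := by
  unfold cK
  calc (1 : ℝ) = ∏ _v : InfinitePlace K, (1 : ℝ) := by rw [Finset.prod_const_one]
    _ ≤ _ := Finset.prod_le_prod (fun v _ => zero_le_one) fun v _ => one_le_pow₀ (cc_one _ _)

theorem Nf_sup_inf (a b : Ideal (𝓞 K)) : Nf K (a ⊔ b) * Nf K (a ⊓ b) = Nf K a * Nf K b := by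
  unfold Nf
  rw [← Nat.cast_mul, ← Nat.cast_mul, ← map_mul, ← map_mul, Ideal.sup_mul_inf]

theorem absNorm_j {f c : Ideal (𝓞 K)} :
    (FractionalIdeal.absNorm ((f : FI K) * (c : FI K)⁻¹) : ℝ) = Nf K f * (Nf K c)⁻¹ := by
  rw [map_mul, map_inv₀, FractionalIdeal.coeIdeal_absNorm, FractionalIdeal.coeIdeal_absNorm]
  push_cast
  rfl

theorem prod_R (k : InfinitePlace K → ℤ) (μ : InfinitePlace K → ℂ) :
    0 ≤ (∏ v : InfinitePlace K, (1 / (4 * cc (k v) (μ v))) ^ v.mult) ∧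
    (∏ v : InfinitePlace K, (1 / (4 * cc (k v) (μ v))) ^ v.mult) ≤ (cK k μ)⁻¹ := by
  constructor
  · refine Finset.prod_nonneg fun v _ => ?_
    have := cc_one (k v) (μ v)
    positivity
  · unfold cK
    rw [← Finset.prod_inv_distrib]
    refine Finset.prod_le_prod (fun v _ => ?_) fun v _ => ?_
    · have := cc_one (k v) (μ v)
      positivity
    · have := cc_one (k v) (μ v)
      rw [← inv_pow]
      refine pow_le_pow_left₀ (by positivity) ?_ _
      rw [one_div]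
      exact inv_anti₀ (by linarith) (by linarith)

variable {ι : Type} [Fintype ι] {M : ι → FI K}

open scoped Classical in
/-- the integral of the off-diagonal part -/
theorem int_od (hIF : R_IF) (hM : ∀ c, M c ≠ 0) {f : Ideal (𝓞 K)} (hf : f ≠ ⊥)
    (χ : HG K f) (μ : InfinitePlace K → ℂ) {A P X τ₃ κ C₁ : ℝ} {S : Finset (Ideal (𝓞 K))}
    (hS : Mul f A S) (hP : P = Nf K f * cK χ.k μ) (hX1 : 1 ≤ X)
    (hτ : Real.exp (-τ₃) = X / A) (hκ0 : 0 < κ) (hκ : κ ≤ 1) (hC₁ : 1 ≤ C₁)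
    (h2 : ∀ (j : FI K) (R : InfinitePlace K → ℝ), j ≠ 0 → (∀ v, 0 < R v) →
      pint M (Icc τ₃ (τ₃ + 3)) (fun L y => cn (j * L) y R) ≤
        ENNReal.ofReal (C₁ * ((∏ v, R v ^ v.mult) * Real.exp (-τ₃) /
          (FractionalIdeal.absNorm j : ℝ)) ^ (1 + κ))) :
    pint M (Icc τ₃ (τ₃ + 3))
      (fun L y => od f S (fun v => 1 / (4 * cc (χ.k v) (μ v))) L y) ≤
      ENNReal.ofReal (16 * C₁ * (A * X) ^ κ * ((S.card : ℝ) ^ 2 * A * X / P)) := by
  have hA1 := hS.one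
  have hA0 : 0 < A := by linarith
  have hX0 : 0 < X := by linarith
  have hN1 := one_le_Nf hf
  have hc1 := cK_one χ.k μ
  have hN0 : 0 < Nf K f := by linarith
  have hc0 : 0 < cK χ.k μ := by linarith
  have hP1 : 1 ≤ P := by
    rw [hP]
    exact one_le_mul_of_one_le_of_one_le hN1 hc1
  have hP0 : 0 < P := by linarith
  obtain ⟨R, hR⟩ : ∃ R : InfinitePlace K → ℝ, R = fun v => 1 / (4 * cc (χ.k v) (μ v)) := ⟨_, rfl⟩
  have hR0 : ∀ v, 0 < R v := by
    intro v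
    rw [hR]
    have := cc_one (χ.k v) (μ v)
    positivity
  obtain ⟨hR1, hR2⟩ := prod_R χ.k μ
  rw [← hR]
  -- measurability
  obtain ⟨-, -, h3, h4⟩ := hIF K f hf
  have hm : ∀ a ∈ S, ∀ b ∈ S, ((f : FI K) * ((a ⊓ b : Ideal (𝓞 K)) : FI K)⁻¹) ≠ 0 := by
    intro a ha b hb
    refine mul_ne_zero (coe_ne hf) (inv_ne_zero (coe_ne ?_))
    intro h0
    have h5 := Nf_sup_inf a b
    rw [h0] at h5
    have h6 := Nf_pos (hS.ne a ha)
    have h7 := Nf_pos (hS.ne b hb)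
    have h8 : Nf K (⊥ : Ideal (𝓞 K)) = 0 := by
      unfold Nf
      rw [Ideal.absNorm_bot, Nat.cast_zero]
    rw [h8, mul_zero] at h5
    have h9 : 0 < Nf K a * Nf K b := by positivity
    linarith
  have hiv : ∀ a ∈ S, ∀ b ∈ S, Ms (fun (L : FI K) y => cn ((f : FI K) *
      (((a ⊓ b : Ideal (𝓞 K)) : FI K)⁻¹ * L)) y R) := by
    intro a ha b hb L hL
    have h5 := (h4 (fun L y => cn L y R) _ (hm a ha b hb) (h3 R)).meas L hL
    simp only [← mul_assoc]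
    exact h5
  have e1 : pint M (Icc τ₃ (τ₃ + 3)) (fun L y => od f S R L y) = ∑ a ∈ S, ∑ b ∈ S,
      pint M (Icc τ₃ (τ₃ + 3)) (fun L y => ENNReal.ofReal (Nf K (a ⊔ b)) *
        cn ((f : FI K) * (((a ⊓ b : Ideal (𝓞 K)) : FI K)⁻¹ * L)) y R) := by
    unfold od
    rw [pint_sum hM S _ _ fun a ha L hL => Finset.measurable_sum S fun b hb =>
      (hiv a ha b hb L hL).const_mul _]
    refine Finset.sum_congr rfl fun a ha => ?_
    rw [pint_sum hM S _ _ fun b hb L hL => (hiv a ha b hb L hL).const_mul _]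
  rw [e1]
  have e2 : ∀ a ∈ S, ∀ b ∈ S, pint M (Icc τ₃ (τ₃ + 3)) (fun L y =>
      ENNReal.ofReal (Nf K (a ⊔ b)) *
        cn ((f : FI K) * (((a ⊓ b : Ideal (𝓞 K)) : FI K)⁻¹ * L)) y R) ≤
      ENNReal.ofReal (16 * C₁ * (A * X) ^ κ * (A * X / P)) := by
    intro a ha b hb
    rw [pint_const_mul ENNReal.ofReal_ne_top]
    simp only [← mul_assoc]
    have h5 := h2 _ R (hm a ha b hb) hR0
    refine (mul_le_mul_right h5 _).trans ?_
    have hab := Nf_sup_inf a b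
    have hs0 : 1 ≤ Nf K (a ⊔ b) := one_le_Nf (ne_bot_of_le_ne_bot (hS.ne a ha) le_sup_left)
    have hi0 : a ⊓ b ≠ ⊥ := by
      intro h0
      apply hm a ha b hb
      rw [h0]
      simp
    have hi1 := one_le_Nf hi0
    obtain ⟨ha1, ha2⟩ := hS.size a ha
    obtain ⟨hb1, hb2⟩ := hS.size b hb
    rw [absNorm_j, hτ, ← ENNReal.ofReal_mul (by linarith)]
    refine ENNReal.ofReal_le_ofReal ?_
    have hi0' : 0 < Nf K (a ⊓ b) := by linarith
    -- the base
    have hu : (∏ v, R v ^ v.mult) * (X / A) / (Nf K f * (Nf K (a ⊓ b))⁻¹) ≤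
        X / A * Nf K (a ⊓ b) / P := by
      rw [hR]
      calc (∏ v : InfinitePlace K, (1 / (4 * cc (χ.k v) (μ v))) ^ v.mult) * (X / A) /
            (Nf K f * (Nf K (a ⊓ b))⁻¹)
          ≤ (cK χ.k μ)⁻¹ * (X / A) / (Nf K f * (Nf K (a ⊓ b))⁻¹) := by gcongr
        _ = X / A * Nf K (a ⊓ b) / P := by
            rw [hP]
            field_simp
    have hu0 : 0 ≤ (∏ v, R v ^ v.mult) * (X / A) / (Nf K f * (Nf K (a ⊓ b))⁻¹) := by
      have hR3 : 0 ≤ ∏ v, R v ^ v.mult :=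
        Finset.prod_nonneg fun v _ => pow_nonneg (hR0 v).le _
      positivity
    have hNN : Nf K a * Nf K b ≤ 2 * A * (2 * A) := by
      have h6 := Nf_pos (hS.ne a ha)
      have h7 := Nf_pos (hS.ne b hb)
      gcongr
    have hin : Nf K (a ⊓ b) ≤ 2 * A * (2 * A) := by
      calc Nf K (a ⊓ b) = 1 * Nf K (a ⊓ b) := (one_mul _).symm
        _ ≤ Nf K (a ⊔ b) * Nf K (a ⊓ b) := by gcongr
        _ ≤ _ := by rw [hab]; exact hNN
    have hu' : X / A * Nf K (a ⊓ b) / P ≤ 4 * (A * X) := by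
      calc X / A * Nf K (a ⊓ b) / P ≤ X / A * (2 * A * (2 * A)) / 1 := by gcongr
        _ = _ := by field_simp; ring
    have hu'0 : 0 < X / A * Nf K (a ⊓ b) / P := by positivity
    have hp : ((∏ v, R v ^ v.mult) * (X / A) / (Nf K f * (Nf K (a ⊓ b))⁻¹)) ^ (1 + κ) ≤
        X / A * Nf K (a ⊓ b) / P * (4 * (A * X) ^ κ) := by
      calc ((∏ v, R v ^ v.mult) * (X / A) / (Nf K f * (Nf K (a ⊓ b))⁻¹)) ^ (1 + κ)
          ≤ (X / A * Nf K (a ⊓ b) / P) ^ (1 + κ) := by gcongr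
        _ = X / A * Nf K (a ⊓ b) / P * (X / A * Nf K (a ⊓ b) / P) ^ κ := by
            rw [Real.rpow_add hu'0, Real.rpow_one]
        _ ≤ X / A * Nf K (a ⊓ b) / P * (4 * (A * X)) ^ κ := by gcongr
        _ ≤ _ := by
            rw [Real.mul_rpow (by norm_num) (by positivity)]
            have h6 : (4 : ℝ) ^ κ ≤ 4 := by
              calc (4 : ℝ) ^ κ ≤ 4 ^ (1 : ℝ) :=
                    Real.rpow_le_rpow_of_exponent_le (by norm_num) hκ
                _ = 4 := Real.rpow_one _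
            gcongr
    calc Nf K (a ⊔ b) * (C₁ * ((∏ v, R v ^ v.mult) * (X / A) /
          (Nf K f * (Nf K (a ⊓ b))⁻¹)) ^ (1 + κ))
        ≤ Nf K (a ⊔ b) * (C₁ * (X / A * Nf K (a ⊓ b) / P * (4 * (A * X) ^ κ))) := by gcongr
      _ = C₁ * (X / A) / P * (4 * (A * X) ^ κ) * (Nf K (a ⊔ b) * Nf K (a ⊓ b)) := by ring
      _ ≤ C₁ * (X / A) / P * (4 * (A * X) ^ κ) * (2 * A * (2 * A)) := by
          rw [hab]
          gcongr
      _ = _ := by field_simp; ring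
  calc ∑ a ∈ S, ∑ b ∈ S, pint M (Icc τ₃ (τ₃ + 3)) (fun L y => ENNReal.ofReal (Nf K (a ⊔ b)) *
        cn ((f : FI K) * (((a ⊓ b : Ideal (𝓞 K)) : FI K)⁻¹ * L)) y R)
      ≤ ∑ _a ∈ S, ∑ _b ∈ S, ENNReal.ofReal (16 * C₁ * (A * X) ^ κ * (A * X / P)) :=
        Finset.sum_le_sum fun a ha => Finset.sum_le_sum fun b hb => e2 a ha b hb
    _ = _ := by
        rw [Finset.sum_const, Finset.sum_const, nsmul_eq_mul, nsmul_eq_mul,
          ← ENNReal.ofReal_natCast, ← ENNReal.ofReal_mul (by positivity),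
          ← ENNReal.ofReal_mul (by positivity)]
        congr 1
        ring

end WG

end Pool.Agent.H8.BH
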