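import Pool.Agent.H8.BH.WGC

/-!
# (WG) the point estimates and the average over the multipliers (MP_52e316_nt)
-/

set_option autoImplicit false

open NumberField NumberField.InfinitePlace NumberField.Units
  NumberField.Units.dirichletUnitTheorem MeasureTheory Set Filter Complex
open scoped nonZeroDivisors ENNReal

namespace Pool.Agent.H8.BH

open Pool.Agent.H25.HK Pool.Agent.H23.LB Pool.Agent.H23.LC Pool.Agent.H29.DW
open Pool.Agent.H28.RC (Rep ft idl)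
open Pool.Agent.H29.BH
open Pool.Agent.H29.TC (dvs)

namespace WG

/-- many multipliers are good -/
theorem markov {α : Type*} (S : Finset α) (φ : α → ℝ≥0∞) {k : ℝ} (hk : 0 < k) [DecidablePred fun a => φ a ≤ ENNReal.ofReal k]
    (h : ∑ a ∈ S, φ a ≤ ENNReal.ofReal (k * (S.card / 2))) :
    ENNReal.ofReal (S.card / 2) ≤ ((S.filter (fun a => φ a ≤ ENNReal.ofReal k)).card : ℝ≥0∞) := by
  have h1 : ((S.filter (fun a => ¬ φ a ≤ ENNReal.ofReal k)).card : ℝ≥0∞) * ENNReal.ofReal k ≤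
      ENNReal.ofReal (k * (S.card / 2)) := by
    refine le_trans ?_ ((Finset.sum_le_sum_of_subset (Finset.filter_subset
      (fun a => ¬ φ a ≤ ENNReal.ofReal k) S)).trans h)
    rw [← nsmul_eq_mul]
    refine Finset.card_nsmul_le_sum _ _ _ fun a ha => ?_
    exact (not_le.1 (Finset.mem_filter.1 ha).2).le
  rw [← ENNReal.ofReal_natCast, ← ENNReal.ofReal_mul (by positivity),
    ENNReal.ofReal_le_ofReal_iff (by positivity), mul_comm] at h1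
  have h2 := le_of_mul_le_mul_left h1 hk
  have h3 := Finset.card_filter_add_card_filter_not (s := S) (fun a => φ a ≤ ENNReal.ofReal k)
  have h4 : ((S.filter (fun a => φ a ≤ ENNReal.ofReal k)).card : ℝ) +
      ((S.filter (fun a => ¬ φ a ≤ ENNReal.ofReal k)).card : ℝ) = S.card := by
    exact_mod_cast h3
  rw [← ENNReal.ofReal_natCast]
  exact ENNReal.ofReal_le_ofReal (by linarith)

theorem num_hold {G U₁ U₂ U₃ : ℝ} (hG : 0 < G) (h1 : 0 ≤ U₁) (h2 : 0 ≤ U₂) (h3 : 0 ≤ U₃) :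
    (G * U₁) ^ (1 / 2 : ℝ) * (G * U₂) ^ (1 / 4 : ℝ) * (4 * G * U₃) ^ (1 / 4 : ℝ) ≤
      4 * G * (U₁ ^ (1 / 2 : ℝ) * U₂ ^ (1 / 4 : ℝ) * U₃ ^ (1 / 4 : ℝ)) := by
  rw [Real.mul_rpow hG.le h1, Real.mul_rpow hG.le h2, Real.mul_rpow (by positivity) h3,
    Real.mul_rpow (by norm_num) hG.le]
  have h4 : (4 : ℝ) ^ (1 / 4 : ℝ) ≤ 4 := by
    calc (4 : ℝ) ^ (1 / 4 : ℝ) ≤ 4 ^ (1 : ℝ) :=
          Real.rpow_le_rpow_of_exponent_le (by norm_num) (by norm_num)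
      _ = 4 := Real.rpow_one _
  have h5 : G ^ (1 / 2 : ℝ) * G ^ (1 / 4 : ℝ) * G ^ (1 / 4 : ℝ) = G := by
    rw [← Real.rpow_add hG, ← Real.rpow_add hG]
    norm_num
  have h6 : 0 ≤ U₁ ^ (1 / 2 : ℝ) * U₂ ^ (1 / 4 : ℝ) * U₃ ^ (1 / 4 : ℝ) := by positivity
  calc G ^ (1 / 2 : ℝ) * U₁ ^ (1 / 2 : ℝ) * (G ^ (1 / 4 : ℝ) * U₂ ^ (1 / 4 : ℝ)) *
        (4 ^ (1 / 4 : ℝ) * G ^ (1 / 4 : ℝ) * U₃ ^ (1 / 4 : ℝ))
      = 4 ^ (1 / 4 : ℝ) * (G ^ (1 / 2 : ℝ) * G ^ (1 / 4 : ℝ) * G ^ (1 / 4 : ℝ)) *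
        (U₁ ^ (1 / 2 : ℝ) * U₂ ^ (1 / 4 : ℝ) * U₃ ^ (1 / 4 : ℝ)) := by ring
    _ ≤ _ := by
        rw [h5]
        gcongr

section

variable {K : Type} [Field K] [NumberField K] {ι : Type} [Fintype ι] {M : ι → FI K}

open scoped Classical in
/-- the point estimate for the multiples -/
theorem point1 {f : Ideal (𝓞 K)} (χ : HG K f) (μ : InfinitePlace K → ℂ) {g K₁ Z : ℝ}
    {S : Finset (Ideal (𝓞 K))} (hK₁ : 1 ≤ K₁) (hZ0 : 0 ≤ Z)
    (hZ : Z * (2 * g) ≤ K₁ * (S.card / 2)) (L : FI K) (y : InfinitePlace K → ℝ)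
    (h : ∑ a ∈ S, gs f ((a : FI K) * L) y ≤ ENNReal.ofReal Z * gs f L y) :
    ENNReal.ofReal (S.card / 2) * (if ENNReal.ofReal g ≤ 1 + gs f L y ∧
      1 + gs f L y < ENNReal.ofReal (2 * g) then ENNReal.ofReal ‖SS χ L y μ‖ else 0) ≤
      ∑ a ∈ S, Ph χ μ g K₁ a L y := by
  by_cases hE : Ep χ μ g L y
  · rw [if_pos hE.1]
    have h1 : gs f L y ≤ ENNReal.ofReal (2 * g) := le_add_self.trans hE.1.2.le
    have h2 : ∑ a ∈ S, gs f ((a : FI K) * L) y ≤ ENNReal.ofReal (K₁ * (S.card / 2)) := by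
      refine h.trans ((mul_le_mul_right h1 _).trans ?_)
      rw [← ENNReal.ofReal_mul hZ0]
      exact ENNReal.ofReal_le_ofReal hZ
    have h3 := markov S (fun a : Ideal (𝓞 K) => gs f ((a : FI K) * L) y)
      (by linarith : (0 : ℝ) < K₁) h2
    refine (mul_le_mul_left h3 _).trans (le_of_eq ?_)
    unfold Ph
    simp only [hE, true_and]
    rw [← Finset.sum_filter, Finset.sum_const, nsmul_eq_mul]
  · have h1 : (if ENNReal.ofReal g ≤ 1 + gs f L y ∧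
        1 + gs f L y < ENNReal.ofReal (2 * g) then ENNReal.ofReal ‖SS χ L y μ‖ else 0) = 0 := by
      split_ifs with h2
      · by_contra h3
        exact hE ⟨h2, h3⟩
      · rfl
    rw [h1, mul_zero]
    exact zero_le

open scoped Classical in
/-- the point estimate with the inequality of Hoelder for one position -/
theorem point2 {f : Ideal (𝓞 K)} (χ : HG K f) (μ : InfinitePlace K → ℂ) {g K₁ Z A P : ℝ}
    {S : Finset (Ideal (𝓞 K))} (hS : Mul f A S) (hP : 0 < P) (hK₁ : 1 ≤ K₁) (L : FI K)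
    (y : InfinitePlace K → ℝ) (O : ℝ≥0∞)
    (h : ∀ E ⊆ S, ∑ a ∈ E, ENNReal.ofReal ‖SS χ ((a : FI K)⁻¹ * L) y μ‖ ≤
      ENNReal.ofReal Z * ENNReal.ofReal (E.card * A) ^ (1 / 2 : ℝ) *
        (ENNReal.ofReal (E.card * A) + O) ^ (1 / 4 : ℝ) *
        (ENNReal.ofReal P * (1 + gs f L y) +
          ENNReal.ofReal (P ^ (1 / 2 : ℝ)) * (1 + gs f L y) ^ 3) ^ (1 / 4 : ℝ)) :
    ∑ a ∈ S, Ph χ μ g K₁ a ((a : FI K)⁻¹ * L) y ≤ ENNReal.ofReal Z *
      ((ENNReal.ofReal A * ∑ a ∈ S, Ei χ μ g ((a : FI K)⁻¹ * L) y) ^ (1 / 2 : ℝ) *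
      (ENNReal.ofReal A * (∑ a ∈ S, Ei χ μ g ((a : FI K)⁻¹ * L) y) + O) ^ (1 / 4 : ℝ) *
      (ENNReal.ofReal (P * (1 + 4 * P ^ (-(1 / 2) : ℝ) * K₁ ^ 2)) *
        (1 + gs f L y)) ^ (1 / 4 : ℝ)) := by
  have hA0 : 0 < A := lt_of_lt_of_le one_pos hS.one
  by_cases hL : gs f L y ≤ ENNReal.ofReal K₁
  · have h1 := h (S.filter (fun a : Ideal (𝓞 K) => Ep χ μ g ((a : FI K)⁻¹ * L) y)) (Finset.filter_subset _ _)
    have h2 : ∑ a ∈ S, Ph χ μ g K₁ a ((a : FI K)⁻¹ * L) y =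
        ∑ a ∈ S.filter (fun a : Ideal (𝓞 K) => Ep χ μ g ((a : FI K)⁻¹ * L) y),
          ENNReal.ofReal ‖SS χ ((a : FI K)⁻¹ * L) y μ‖ := by
      rw [Finset.sum_filter]
      refine Finset.sum_congr rfl fun a ha => ?_
      unfold Ph
      rw [← mul_assoc, mul_inv_cancel₀ (coe_ne (hS.ne a ha)), one_mul]
      simp only [hL, and_true]
    have h3 : ENNReal.ofReal ((S.filter (fun a : Ideal (𝓞 K) => Ep χ μ g ((a : FI K)⁻¹ * L) y)).card * A) =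
        ENNReal.ofReal A * ∑ a ∈ S, Ei χ μ g ((a : FI K)⁻¹ * L) y := by
      unfold Ei
      rw [Finset.sum_boole, mul_comm, ENNReal.ofReal_mul hA0.le, ENNReal.ofReal_natCast]
    rw [h2]
    refine h1.trans ?_
    rw [h3, mul_assoc, mul_assoc, mul_assoc]
    have h4 : ENNReal.ofReal P * (1 + gs f L y) +
          ENNReal.ofReal (P ^ (1 / 2 : ℝ)) * (1 + gs f L y) ^ 3 ≤
        ENNReal.ofReal (P * (1 + 4 * P ^ (-(1 / 2) : ℝ) * K₁ ^ 2)) * (1 + gs f L y) := by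
      have h5 : 1 + gs f L y ≤ ENNReal.ofReal (2 * K₁) := by
        calc 1 + gs f L y ≤ ENNReal.ofReal 1 + ENNReal.ofReal K₁ := by
              rw [ENNReal.ofReal_one]
              gcongr
          _ = ENNReal.ofReal (1 + K₁) := (ENNReal.ofReal_add zero_le_one (by linarith)).symm
          _ ≤ _ := ENNReal.ofReal_le_ofReal (by linarith)
      have h6 : (1 + gs f L y) ^ 3 ≤ ENNReal.ofReal (4 * K₁ ^ 2) * (1 + gs f L y) := by
        calc (1 + gs f L y) ^ 3 = (1 + gs f L y) ^ 2 * (1 + gs f L y) := pow_succ _ 2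
          _ ≤ ENNReal.ofReal (2 * K₁) ^ 2 * (1 + gs f L y) := by gcongr
          _ = _ := by
            rw [← ENNReal.ofReal_pow (by linarith)]
            congr 2
            ring
      calc ENNReal.ofReal P * (1 + gs f L y) +
            ENNReal.ofReal (P ^ (1 / 2 : ℝ)) * (1 + gs f L y) ^ 3
          ≤ ENNReal.ofReal P * (1 + gs f L y) +
            ENNReal.ofReal (P ^ (1 / 2 : ℝ)) * (ENNReal.ofReal (4 * K₁ ^ 2) *
              (1 + gs f L y)) := by gcongr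
        _ = (ENNReal.ofReal P + ENNReal.ofReal (P ^ (1 / 2 : ℝ)) * ENNReal.ofReal (4 * K₁ ^ 2)) *
              (1 + gs f L y) := by ring
        _ = _ := by
            rw [← ENNReal.ofReal_mul (by positivity), ← ENNReal.ofReal_add hP.le (by positivity)]
            congr 2
            have h7 : P ^ (1 / 2 : ℝ) = P * P ^ (-(1 / 2) : ℝ) := by
              nth_rewrite 2 [← Real.rpow_one P]
              rw [← Real.rpow_add hP]
              norm_num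
            rw [h7]
            ring
    gcongr
  · have h1 : ∑ a ∈ S, Ph χ μ g K₁ a ((a : FI K)⁻¹ * L) y = 0 := by
      refine Finset.sum_eq_zero fun a ha => ?_
      unfold Ph
      rw [← mul_assoc, mul_inv_cancel₀ (coe_ne (hS.ne a ha)), one_mul]
      simp only [hL, and_false, if_false]
    rw [h1]
    exact zero_le

/-- measurability of the off-diagonal part -/
theorem ms_od (hIF : R_IF) {f : Ideal (𝓞 K)} (hf : f ≠ ⊥) {A : ℝ} {S : Finset (Ideal (𝓞 K))}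
    (hS : Mul f A S) (R : InfinitePlace K → ℝ) : Ms (fun L y => od f S R L y) := by
  obtain ⟨-, -, h3, h4⟩ := hIF K f hf
  intro L hL
  refine Finset.measurable_sum S fun a ha => Finset.measurable_sum S fun b hb => ?_
  refine Measurable.const_mul ?_ _
  have hm : ((f : FI K) * ((a ⊓ b : Ideal (𝓞 K)) : FI K)⁻¹) ≠ 0 := by
    refine mul_ne_zero (coe_ne hf) (inv_ne_zero (coe_ne ?_))
    intro h0
    have h5 := Nf_sup_inf a b
    rw [h0] at h5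
    have h6 := Nf_pos (hS.ne a ha)
    have h7 := Nf_pos (hS.ne b hb)
    have h8 : Nf K (⊥ : Ideal (𝓞 K)) = 0 := by
      unfold Nf
      rw [Ideal.absNorm_bot, Nat.cast_zero]
    rw [h8, mul_zero] at h5
    have h9 : 0 < Nf K a * Nf K b := by positivity
    linarith
  have h5 := (h4 (fun L y => cn L y R) _ hm (h3 R)).meas L hL
  simp only [← mul_assoc]
  exact h5

end

/-- the constants -/
theorem consts {n : ℕ} {A P X e C₁ C₂ C₄ C₆ D w G : ℝ} (hA1 : 1 ≤ A) (hP1 : 1 ≤ P) (hX1 : 1 ≤ X)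
    (he0 : 0 < e) (hC₁ : 1 ≤ C₁) (hC₂ : 1 ≤ C₂) (hC₄1 : 1 ≤ C₄)
    (hC₆ : C₆ = 2 * (C₂ * Real.exp 1 ^ 2) * C₄ +
      2 * (C₁ * ((17 / 8) ^ n * Real.exp 1) ^ 2) + 16 * C₁)
    (hw : w = (A * P * X) ^ e) (hG : G = C₆ * w ^ 2) (hD0 : 0 ≤ D) (hD : D ≤ C₄ * P ^ e) :
    1 ≤ w ∧ 0 < G ∧ C₁ ≤ G ∧ 2 * (C₂ * Real.exp 1 ^ 2) * (D * X ^ e) ≤ G ∧
    2 * (C₁ * ((17 / 8) ^ n * Real.exp 1) ^ 2) * X ^ e ≤ G ∧ 16 * C₁ * (A * X) ^ e ≤ G ∧
    C₂ * (D * X ^ e) ≤ G ∧ (A * P) ^ e ≤ w := by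
  have hA0 : 0 < A := by linarith
  have hP0 : 0 < P := by linarith
  have hX0 : 0 < X := by linarith
  have hex : 1 ≤ Real.exp 1 := Real.one_le_exp zero_le_one
  have hex0 : 0 < Real.exp 1 := by linarith
  have e1 : 0 ≤ 2 * (C₂ * Real.exp 1 ^ 2) * C₄ := by positivity
  have e2 : 0 ≤ 2 * (C₁ * ((17 / 8) ^ n * Real.exp 1) ^ 2) := by positivity
  have hC₆1 : 16 * C₁ ≤ C₆ := by linarith
  have hC₆2 : 2 * (C₂ * Real.exp 1 ^ 2) * C₄ ≤ C₆ := by linarith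
  have hC₆3 : 2 * (C₁ * ((17 / 8) ^ n * Real.exp 1) ^ 2) ≤ C₆ := by linarith
  have hC₆0 : 0 < C₆ := by linarith
  have hAPX : 1 ≤ A * P * X :=
    one_le_mul_of_one_le_of_one_le (one_le_mul_of_one_le_of_one_le hA1 hP1) hX1
  have hw1 : 1 ≤ w := by rw [hw]; exact Real.one_le_rpow hAPX he0.le
  have hw0 : 0 < w := by linarith
  have hwX : X ^ e ≤ w := by
    rw [hw]
    refine Real.rpow_le_rpow hX0.le ?_ he0.le
    exact le_mul_of_one_le_left hX0.le (one_le_mul_of_one_le_of_one_le hA1 hP1)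
  have hwP : P ^ e ≤ w := by
    rw [hw]
    refine Real.rpow_le_rpow hP0.le ?_ he0.le
    calc P = 1 * P * 1 := by ring
      _ ≤ A * P * X := by gcongr
  have hwAX : (A * X) ^ e ≤ w := by
    rw [hw]
    refine Real.rpow_le_rpow (by positivity) ?_ he0.le
    calc A * X = A * 1 * X := by ring
      _ ≤ A * P * X := by gcongr
  have hwAP : (A * P) ^ e ≤ w := by
    rw [hw]
    refine Real.rpow_le_rpow (by positivity) ?_ he0.le
    exact le_mul_of_one_le_right (by positivity) hX1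
  have hDw : D ≤ C₄ * w := hD.trans (by gcongr)
  have hw2 : w ≤ w ^ 2 := by
    calc w = w ^ 1 := (pow_one _).symm
      _ ≤ w ^ 2 := pow_le_pow_right₀ hw1 (by norm_num)
  have hw21 : 1 ≤ w ^ 2 := one_le_pow₀ hw1
  have hG0 : 0 < G := by rw [hG]; positivity
  have g2 : 2 * (C₂ * Real.exp 1 ^ 2) * (D * X ^ e) ≤ G := by
    rw [hG]
    calc 2 * (C₂ * Real.exp 1 ^ 2) * (D * X ^ e)
        ≤ 2 * (C₂ * Real.exp 1 ^ 2) * (C₄ * w * w) := by gcongr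
      _ = 2 * (C₂ * Real.exp 1 ^ 2) * C₄ * w ^ 2 := by ring
      _ ≤ _ := by gcongr
  refine ⟨hw1, hG0, ?_, g2, ?_, ?_, ?_, hwAP⟩
  · rw [hG]
    calc C₁ = C₁ * 1 := (mul_one _).symm
      _ ≤ C₆ * w ^ 2 := by
        gcongr
        linarith
  · rw [hG]
    calc 2 * (C₁ * ((17 / 8) ^ n * Real.exp 1) ^ 2) * X ^ e
        ≤ C₆ * w := by gcongr
      _ ≤ _ := by gcongr
  · rw [hG]
    calc 16 * C₁ * (A * X) ^ e ≤ C₆ * w := by gcongr
      _ ≤ _ := by gcongr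
  · refine le_trans ?_ g2
    have e1 : 1 ≤ Real.exp 1 ^ 2 := one_le_pow₀ hex
    have e2 : 0 ≤ D * X ^ e := by positivity
    have e3 : C₂ ≤ 2 * (C₂ * Real.exp 1 ^ 2) := by
      have e4 : C₂ * 1 ≤ C₂ * Real.exp 1 ^ 2 := by gcongr
      have e5 : 0 ≤ C₂ * Real.exp 1 ^ 2 := by positivity
      linarith
    exact mul_le_mul_of_nonneg_right e3 e2

/-- the third factor -/
theorem third {G P K₁ H Y : ℝ} (hG : 0 ≤ G) (hP : 0 < P) (hH : 0 ≤ H) (hY : 0 ≤ Y) :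
    P * (1 + 4 * P ^ (-(1 / 2) : ℝ) * K₁ ^ 2) * (G * H + G * Y) ≤
      4 * G * (P * (1 + P ^ (-(1 / 2) : ℝ) * K₁ ^ 2) * (H + Y)) := by
  have e4 : 0 ≤ P * (G * (H + Y)) := by positivity
  calc P * (1 + 4 * P ^ (-(1 / 2) : ℝ) * K₁ ^ 2) * (G * H + G * Y)
      = P * (G * (H + Y)) * (1 + 4 * P ^ (-(1 / 2) : ℝ) * K₁ ^ 2) := by ring
    _ ≤ P * (G * (H + Y)) * (4 + 4 * P ^ (-(1 / 2) : ℝ) * K₁ ^ 2) := by
        gcongr
        norm_num
    _ = _ := by ring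

/-- the end of the proof -/
theorem fin_num {H P X A s g K₁ G C₅ z : ℝ} {B : ℝ≥0∞} (hs : 0 < s) (hG0 : 0 < G)
    (hA0 : 0 < A) (hP0 : 0 < P) (hX0 : 0 < X) (hg0 : 0 < g) (hH0 : 0 ≤ H) (hC₅ : 0 ≤ C₅)
    (hz : 0 ≤ z)
    (h : ENNReal.ofReal (s / 2) * B ≤ ENNReal.ofReal (C₅ * z) *
        (ENNReal.ofReal (G * (s * A * min H (X / g))) ^ (1 / 2 : ℝ) *
        ENNReal.ofReal (G * (s * A * min H (X / g) + s ^ 2 * A * X / P)) ^ (1 / 4 : ℝ) *
        ENNReal.ofReal (4 * G * (P * (1 + P ^ (-(1 / 2) : ℝ) * K₁ ^ 2) * (H + X / A))) ^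
          (1 / 4 : ℝ))) :
    0 ≤ Wb H P X A s g K₁ ∧ B ≤ ENNReal.ofReal (8 * C₅ * z * G * Wb H P X A s g K₁) := by
  obtain ⟨m, hm⟩ : ∃ m : ℝ, m = min H (X / g) := ⟨_, rfl⟩
  have hm0 : 0 ≤ m := by rw [hm]; exact le_min hH0 (by positivity)
  rw [← hm] at h
  have hU1 : 0 ≤ s * A * m := by positivity
  have hU2 : 0 ≤ s * A * m + s ^ 2 * A * X / P := by positivity
  have hU3 : 0 ≤ P * (1 + P ^ (-(1 / 2) : ℝ) * K₁ ^ 2) * (H + X / A) := by positivity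
  have fin2 := num_hold hG0 hU1 hU2 hU3
  have hG1 : 0 ≤ G * (s * A * m) := by positivity
  have hG2 : 0 ≤ G * (s * A * m + s ^ 2 * A * X / P) := by positivity
  have hG3 : 0 ≤ 4 * G * (P * (1 + P ^ (-(1 / 2) : ℝ) * K₁ ^ 2) * (H + X / A)) := by positivity
  rw [ENNReal.ofReal_rpow_of_nonneg hG1 (by norm_num),
    ENNReal.ofReal_rpow_of_nonneg hG2 (by norm_num),
    ENNReal.ofReal_rpow_of_nonneg hG3 (by norm_num),
    ← ENNReal.ofReal_mul (by positivity), ← ENNReal.ofReal_mul (by positivity),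
    ← ENNReal.ofReal_mul (by positivity)] at h
  obtain ⟨W, hW⟩ : ∃ W : ℝ, W = Wb H P X A s g K₁ := ⟨_, rfl⟩
  have hW1 : s * W = (s * A * m) ^ (1 / 2 : ℝ) *
      (s * A * m + s ^ 2 * A * X / P) ^ (1 / 4 : ℝ) *
      (P * (1 + P ^ (-(1 / 2) : ℝ) * K₁ ^ 2) * (H + X / A)) ^ (1 / 4 : ℝ) := by
    rw [hW, hm]
    unfold Wb
    field_simp
  have hW0 : 0 ≤ W := by
    rw [hW]
    unfold Wb
    rw [← hm]
    positivity
  rw [← hW1] at fin2
  have fin3 : ENNReal.ofReal (s / 2) * B ≤ ENNReal.ofReal (s / 2) *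
      ENNReal.ofReal (8 * C₅ * z * G * W) := by
    refine h.trans ?_
    rw [← ENNReal.ofReal_mul (by positivity)]
    refine ENNReal.ofReal_le_ofReal ?_
    calc C₅ * z * ((G * (s * A * m)) ^ (1 / 2 : ℝ) *
          (G * (s * A * m + s ^ 2 * A * X / P)) ^ (1 / 4 : ℝ) *
          (4 * G * (P * (1 + P ^ (-(1 / 2) : ℝ) * K₁ ^ 2) * (H + X / A))) ^ (1 / 4 : ℝ))
        ≤ C₅ * z * (4 * G * (s * W)) := mul_le_mul_of_nonneg_left fin2 (by positivity)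
      _ = _ := by ring
  have hs2 : 0 < s / 2 := by positivity
  rw [← hW]
  exact ⟨hW0, (ENNReal.mul_le_mul_iff_right (ENNReal.ofReal_pos.2 hs2).ne'
    ENNReal.ofReal_ne_top).1 fin3⟩

end WG

end Pool.Agent.H8.BH
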